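import Pool.Agent.Helper8.LD10.Mask
import Pool.Agent.Helper55.LD10.FO
import Pool.Agent.Helper18.LD10.TestTime
import Pool.Agent.Helper83.LD10.TST
import Pool.Agent.Helper18.LD8.PC

/-!
# LD10, block PC: the pair correlations of a stage
-/

set_option autoImplicit false

namespace Pool.Agent.Helper18.LD10

open Set MeasureTheory
open Pool.Agent.Helper41.LD (av var haar)
open Pool.Agent.Helper41.LD4 (A M W Pot NB NBg)
open Pool.Agent.Helper41.LD6 (vq Qs Wq)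
open Pool.Agent.Helper78.LD8 (Pm)
open Pool.Agent.Helper78.LD10
open Pool.Agent.Helper65.LD6 (pair6)
open Pool.Agent.Helper4.LD6 (vq_lo)
open Pool.Agent.Helper44.LD8 (Tt_mono)
open Pool.Agent.Helper18.LD8 (num18a)
open Pool.Agent.Helper8.LD10 (G_meas G_bdd win)
open Pool.Agent.Helper55.LD10 (fast_one fast_two)
open Pool.Agent.Helper83.LD10 (test_slow test_few)

variable {F : Pm} {Q K : ℕ} {ℓst a ℓ x : ℝ}

open Classical in
/-- PC10: `pair6` with `H = 2 ^ (2 K)`, `N' = 2 ^ (13 E)`, `e₁ = e₂ = 2 ^ (-10 e)`; `fast_two` with `ϑ = Th` for `Th ≤ V j * ℓ`, else `test_slow` -/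
theorem stage_PC10 (hF : F.Ok) (hK : F.Big K) (hQX : Q ≤ F.X) (hN : F.NR K) (hℓ : 0 < ℓ) (hst : ℓ ≤ ℓst) (hst1 : ℓst ≤ 1)
    (hcount : F.T K ℓst (ℓ / 2 ^ F.b K) + F.r K ≤ 2 ^ (2 * K)) (a : ℝ) :
    ∃ t : ℕ → ℕ, ∀ u ∈ Is F Q K, ∀ u' ∈ Is F Q K,
      |(∑ b ∈ Finset.range (2 ^ F.b K), (M (G F Q K ℓst u) (a + b * (ℓ / (2 ^ F.b K : ℕ))) (ℓ / (2 ^ F.b K : ℕ)) -
          M (G F Q K ℓst u) a ℓ) * A (G F Q K ℓst u') (t u'.1) (a + b * (ℓ / (2 ^ F.b K : ℕ))) (ℓ / (2 ^ F.b K : ℕ))) / (2 ^ F.b K : ℕ) -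
        (if u = u' then vq u.2 else 0)| ≤ (1 / 2) ^ (4 * F.e K) := by
  choose! tt htt using fun (i : ℕ) (hi : i < Q) => test_time hF hK hQX hℓ hst hst1 hcount hi
  refine ⟨tt, fun u hu u' hu' => ?_⟩
  obtain ⟨t, htdef⟩ : ∃ t : ℕ, t = tt u'.1 := ⟨_, rfl⟩
  obtain ⟨ht, htm, ht1, ht2⟩ := htt u'.1 (Finset.mem_range.1 (Finset.mem_product.1 hu').1)
  rw [← htdef] at ht htm ht1 ht2 ⊢
  obtain ⟨n1, n2, n3, n4⟩ := num18a hF hK
  have hBpos : 0 < 2 ^ F.b K := Nat.pow_pos (by norm_num)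
  have hB0 : (0 : ℝ) < ((2 ^ F.b K : ℕ) : ℝ) := by exact_mod_cast hBpos
  have hBe : ((2 ^ F.b K : ℕ) : ℝ) = 2 ^ F.b K := by push_cast; rfl
  have hlB : 0 < ℓ / (2 ^ F.b K : ℕ) := div_pos hℓ hB0
  -- the windows
  have hw := win hF hK hN (ℓst := ℓst) hℓ hu a
  have hw' : ∀ b : ℕ, b < 2 ^ F.b K → Wq (G F Q K ℓst u) (2 * vq u.2) ((1 / 2) ^ (2 * F.e K)) (2 ^ (2 * K))
      (F.T K ℓst (ℓ / (2 ^ F.b K : ℕ))) (a + b * (ℓ / (2 ^ F.b K : ℕ))) (ℓ / (2 ^ F.b K : ℕ)) :=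
    fun b _ => win hF hK hN hlB hu _
  -- the test time is fast
  have hThpos : 0 < F.Th K := by unfold Pm.Th; positivity
  have hTh : F.Th K ≤ F.V K ℓst t * ℓ := by
    refine le_trans ?_ ht1
    unfold Pm.Th
    exact pow_le_pow_right₀ (by norm_num) (by omega)
  -- the error
  have herr : ((1 / 2 : ℝ)) ^ (11 * F.e K) + 2 ^ (2 * F.E K) / F.Th K ≤ (1 / 2) ^ (10 * F.e K) := by
    have h3 : (2 : ℝ) ^ (2 * F.E K) / F.Th K = (1 / 2) ^ F.E K := by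
      unfold Pm.Th
      rw [div_pow, one_pow, div_eq_div_iff (by positivity) (by positivity), ← pow_add, one_mul]
      congr 1
      ring
    rw [h3]
    have h4 : ((1 / 2 : ℝ)) ^ (11 * F.e K) ≤ (1 / 2) ^ (10 * F.e K + 1) := pow_le_pow_of_le_one (by norm_num) (by norm_num) (by omega)
    have h5 : ((1 / 2 : ℝ)) ^ F.E K ≤ (1 / 2) ^ (10 * F.e K + 1) := pow_le_pow_of_le_one (by norm_num) (by norm_num) (by omega)
    have h6 : ((1 / 2 : ℝ)) ^ (10 * F.e K + 1) = (1 / 2) ^ (10 * F.e K) / 2 := by rw [pow_succ]; ring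
    linarith
  -- the correlations
  have hδ : ∀ j < 2 ^ (2 * K), |av (fun x => G F Q K ℓst u j x * G F Q K ℓst u' t x) a ℓ - (if j = t ∧ u = u' then vq u.2 else 0)| ≤
      (1 / 2) ^ (10 * F.e K) := by
    intro j hj
    by_cases hfast : F.Th K ≤ F.V K ℓst j * ℓ
    · have h3 := fast_two hF hK hN (a := a) hℓ hThpos hfast hTh hu hu' hj ht
      have hiff : (j = t ∧ u = u' ∧ (F.n₀ K ℓst + j) % Q = u.1) ↔ (j = t ∧ u = u') := by
        constructor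
        · exact fun h => ⟨h.1, h.2.1⟩
        · rintro ⟨rfl, rfl⟩
          exact ⟨rfl, rfl, htm⟩
      simp only [hiff] at h3
      unfold av
      have h4 : (∫ x in a..(a + ℓ), G F Q K ℓst u j x * G F Q K ℓst u' t x) / ℓ - (if j = t ∧ u = u' then vq u.2 else 0) =
          ((∫ x in a..(a + ℓ), G F Q K ℓst u j x * G F Q K ℓst u' t x) - ℓ * (if j = t ∧ u = u' then vq u.2 else 0)) / ℓ := by
        field_simp
      rw [h4, abs_div, abs_of_pos hℓ, div_le_iff₀ hℓ]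
      exact h3.trans (mul_le_mul_of_nonneg_right herr hℓ.le)
    · have hjt : j ≠ t := by
        rintro rfl
        exact hfast hTh
      rw [if_neg (fun h => hjt h.1), sub_zero]
      exact test_slow hF hK hN hℓ ht1 (not_le.1 hfast) hu hu'
  have he₂ : |av (G F Q K ℓst u' t) a ℓ| ≤ (1 / 2) ^ (10 * F.e K) := by
    unfold av
    rw [abs_div, abs_of_pos hℓ, div_le_iff₀ hℓ]
    have h3 := fast_one hF hK hN hℓ (p := a) (p' := a + ℓ) (by linarith) hThpos hTh hu'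
    refine h3.trans (le_trans (le_of_eq ?_) (mul_le_mul_of_nonneg_right herr hℓ.le))
    ring
  have hfew := test_few hF hK hℓ ht2 hu' a
  have hpair := pair6 hw (n' := F.T K ℓst (ℓ / (2 ^ F.b K : ℕ))) (B := 2 ^ F.b K) hBpos hw' (F := G F Q K ℓst u' t)
    (G_meas K ℓst hu' t) (G_bdd K ℓst hu' t) hfew (fun j => if j = t ∧ u = u' then vq u.2 else 0) hδ he₂
  have hsum : ∑ j ∈ Finset.range (2 ^ (2 * K)), (if j = t ∧ u = u' then vq u.2 else 0) = if u = u' then vq u.2 else 0 := by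
    by_cases huu : u = u'
    · simp only [huu, and_true, if_true]
      rw [Finset.sum_ite_eq', if_pos (Finset.mem_range.2 ht)]
    · simp [huu]
  rw [hsum] at hpair
  refine hpair.trans ?_
  -- the numbers
  have hn : (F.T K ℓst ℓ : ℝ) ≤ 2 ^ (2 * K) := by
    have h3 : F.T K ℓst ℓ ≤ F.T K ℓst (ℓ / 2 ^ F.b K) := by
      unfold Pm.T
      refine Nat.sub_le_sub_right (Tt_mono hF.h1 (by positivity) ?_ hThpos.le) _
      exact div_le_self hℓ.le (one_le_pow₀ (by norm_num))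
    have h4 : F.T K ℓst ℓ ≤ 2 ^ (2 * K) := by omega
    exact_mod_cast h4
  have hv : vq u.2 ≤ 1 := (vq_lo (Finset.mem_product.1 hu).2).2
  have e1 : ((2 ^ (2 * K) : ℕ) : ℝ) = 2 ^ (2 * K) := by push_cast; rfl
  have h3 : ((2 ^ (2 * K) : ℕ) : ℝ) * (2 * 2 ^ (13 * F.E K) / ((2 ^ F.b K : ℕ) : ℝ)) ≤ (1 / 2) ^ (4 * F.e K + 2) := by
    rw [e1, hBe, one_div, inv_pow, mul_div_assoc', div_le_iff₀ (by positivity), inv_mul_eq_div, le_div_iff₀ (by positivity)]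
    calc (2 : ℝ) ^ (2 * K) * (2 * 2 ^ (13 * F.E K)) * 2 ^ (4 * F.e K + 2) = 2 ^ (2 * K + 1 + 13 * F.E K + (4 * F.e K + 2)) := by
          rw [pow_add, pow_add, pow_add]
          ring
      _ ≤ 2 ^ F.b K := pow_le_pow_right₀ (by norm_num) n1
  have h4 : (2 : ℝ) ^ (2 * K) * (1 / 2) ^ (10 * F.e K) ≤ (1 / 2) ^ (4 * F.e K + 4) := by
    have h5 : ((1 / 2 : ℝ)) ^ (10 * F.e K) = (1 / 2) ^ (2 * K) * (1 / 2) ^ (10 * F.e K - 2 * K) := by
      rw [← pow_add]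
      congr 1
      omega
    rw [h5, ← mul_assoc, ← mul_pow]
    rw [show (2 : ℝ) * (1 / 2) = 1 by norm_num, one_pow, one_mul]
    exact pow_le_pow_of_le_one (by norm_num) (by norm_num) (by omega)
  have h6 : ((1 / 2 : ℝ)) ^ (4 * F.e K + 2) = (1 / 2) ^ (4 * F.e K) / 4 := by rw [pow_add]; norm_num; ring
  have h7 : ((1 / 2 : ℝ)) ^ (4 * F.e K + 4) = (1 / 2) ^ (4 * F.e K) / 16 := by rw [pow_add]; norm_num; ring
  have hx : (1 : ℝ) ≤ 2 ^ (2 * K) := one_le_pow₀ (by norm_num)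
  have hy : (0 : ℝ) < (1 / 2) ^ (10 * F.e K) := by positivity
  have h8 : ((F.T K ℓst ℓ : ℝ) + 2 * vq u.2) * (1 / 2) ^ (10 * F.e K) ≤ 3 * (2 ^ (2 * K) * (1 / 2) ^ (10 * F.e K)) := by
    have h9 : (F.T K ℓst ℓ : ℝ) + 2 * vq u.2 ≤ 3 * 2 ^ (2 * K) := by linarith
    calc _ ≤ 3 * 2 ^ (2 * K) * (1 / 2 : ℝ) ^ (10 * F.e K) := mul_le_mul_of_nonneg_right h9 hy.le
      _ = _ := by ring
  rw [mul_add, e1] at *
  have h10 : (0 : ℝ) < (1 / 2) ^ (4 * F.e K) := by positivity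
  linarith

end Pool.Agent.Helper18.LD10
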